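import Pool.Agent.Run7.h49.JT.All

/-!
# Non-separable subspaces of the dual of the James tree space contain the predual (MP_245e03_an, Q2)

`Tree` is the set of finite 0-1 sequences (`List Bool`), ordered by extension, and `Pre Tree` is the
space of finitely supported functions `x : Tree → ℝ` with the norm
`sup (∑_{S ∈ P} (∑_{i ∈ S} x i)²)^(1/2)`, the supremum over the finite families `P` of pairwise
disjoint segments (`Pool.Agent.R277.JT.Def`, starting tree); `ev a` is the unit vector of the
node `a`.
-/

set_option autoImplicit false

namespace Pool.Agent.Results.MP_245e03_an.NonseparableContainsPredual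

open Pool.Agent.R277.JT UniformSpace Run7.h49.JT

/-- The James tree space: the completion of the finitely supported functions on the dyadic tree. -/
def JT : Type := Completion (Pre Tree)

noncomputable instance : NormedAddCommGroup JT :=
  Completion.instNormedAddCommGroup (Pre Tree)

noncomputable instance : NormedSpace ℝ JT :=
  Completion.instNormedSpace ℝ (Pre Tree)

/-- The unit vector `e_a` of the James tree space. -/
noncomputable def e (a : Tree) : JT := ((ev a : Pre Tree) : Completion (Pre Tree))

/-- The dual of a normed space, with the dual norm. -/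
def Dual (E : Type*) [NormedAddCommGroup E] [NormedSpace ℝ E] : Type _ := StrongDual ℝ E

section dual

variable {E : Type*} [NormedAddCommGroup E] [NormedSpace ℝ E]

noncomputable instance : NormedAddCommGroup (Dual E) := ContinuousLinearMap.toNormedAddCommGroup

noncomputable instance : NormedSpace ℝ (Dual E) := ContinuousLinearMap.toNormedSpace

/-- The value of a functional at a vector. -/
noncomputable def Dual.app (f : Dual E) (x : E) : ℝ := (show E →L[ℝ] ℝ from f) x

end dual

/-- The set of the functionals biorthogonal to the unit vectors: `f` is `e_a^*` for some node `a`,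
i.e. `f (e_a) = 1` and `f (e_b) = 0` for all `b ≠ a`. -/
def Biorthogonal : Set (Dual JT) :=
  {f | ∃ a : Tree, f.app (e a) = 1 ∧ ∀ b : Tree, b ≠ a → f.app (e b) = 0}

/-- The predual `B` of `JT`: the closed linear span of the biorthogonal functionals in `JT*`. -/
noncomputable def B : Submodule ℝ (Dual JT) := (Submodule.span ℝ Biorthogonal).topologicalClosure

/-- `E` contains `F`: some closed subspace of `E` is isomorphic to `F`. -/
def Contains (E F : Type*) [NormedAddCommGroup E] [NormedSpace ℝ E] [NormedAddCommGroup F]
    [NormedSpace ℝ F] : Prop :=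
  ∃ Z : Submodule ℝ E, IsClosed (Z : Set E) ∧ Nonempty (Z ≃L[ℝ] F)

/-- the dual of the completion and the dual of the finitely supported functions -/
noncomputable def jT : (Dual JT) ≃ₗᵢ[ℝ] D Tree := eT

lemma jT_apply (f : (Dual JT)) (a : Tree) : jT f (ev a) = f.app (e a) := rfl

lemma bio_eq : Biorthogonal = Set.range (fun a => jT.symm (es a)) := by
  ext f
  constructor
  · rintro ⟨a, h1, h2⟩
    refine ⟨a, ?_⟩
    have : jT f = es a := eq_es (by rw [jT_apply, h1]) (fun b hb => by rw [jT_apply, h2 b hb])
    change jT.symm (es a) = f
    rw [← this, LinearIsometryEquiv.symm_apply_apply]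
  · rintro ⟨a, rfl⟩
    refine ⟨a, ?_, fun b hb => ?_⟩
    · change (Dual.app (jT.symm (es a)) (e a)) = 1
      rw [← jT_apply, LinearIsometryEquiv.apply_symm_apply, es_ev_self]
    · change (Dual.app (jT.symm (es a)) (e b)) = 0
      rw [← jT_apply, LinearIsometryEquiv.apply_symm_apply, es_ev_ne hb]

/-- Q2: every non-separable closed subspace `Y` of `JT*` contains `B`. -/
theorem result (Y : Submodule ℝ (Dual JT)) (hYc : IsClosed (Y : Set (Dual JT)))
    (hY : ¬ TopologicalSpace.SeparableSpace Y) : Contains Y B := by
  have h0 : CompleteSpace (Dual JT) :=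
    inferInstanceAs (CompleteSpace (StrongDual ℝ (Completion (Pre Tree))))
  have h := main_abs prove_A1 all_N1 all_C3 all_U8 all_L4 jT Y hYc hY
  rw [← bio_eq] at h
  exact h

end Pool.Agent.Results.MP_245e03_an.NonseparableContainsPredual
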